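import Mathlib

/-!
# Graphs without an independent set of size three have unbounded sphere dimension

For a fixed vertex `u`, the spheres meeting the sphere of `u` correspond, in suitable lifted
coordinates, to the intersection of two half spaces of dimension `d + 3`; for circle graphs the
adjacency is described by one half space of dimension `6`. By the Sauer-Shelah lemma,
the co-bipartite graph with sides `Fin m` and all subsets of `Fin m` is not of this form for large `m`.
-/

set_option autoImplicit false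

namespace Pool.Agent.Results.MP_97b8d2_co.UnboundedSphereDim

open SimpleGraph Finset Metric

/-- `H` is an induced minor of `G`: there are pairwise disjoint connected branch sets such that
distinct vertices of `H` are adjacent exactly if an edge of `G` joins their branch sets. -/
def IsInducedMinor {W V : Type} (H : SimpleGraph W) (G : SimpleGraph V) : Prop :=
  ∃ B : W → Set V, (∀ i, (G.induce (B i)).Connected) ∧ (∀ i j, i ≠ j → Disjoint (B i) (B j)) ∧
    ∀ i j, i ≠ j → (H.Adj i j ↔ ∃ a ∈ B i, ∃ b ∈ B j, G.Adj a b)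

/-- `d`-sphere graphs: intersection graphs of spheres in `ℝ^d`. -/
def IsSphereGraph (d : ℕ) {V : Type} (G : SimpleGraph V) : Prop :=
  ∃ (c : V → EuclideanSpace ℝ (Fin d)) (r : V → ℝ), (∀ v, 0 < r v) ∧
    ∀ u v, u ≠ v → (G.Adj u v ↔ (sphere (c u) (r u) ∩ sphere (c v) (r v)).Nonempty)

/-- circle graphs: intersection graphs of chords of a circle. -/
def IsCircleGraph {V : Type} (G : SimpleGraph V) : Prop :=
  ∃ p q : V → EuclideanSpace ℝ (Fin 2), (∀ v, ‖p v‖ = 1 ∧ ‖q v‖ = 1 ∧ p v ≠ q v) ∧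
    ∀ u v, u ≠ v → (G.Adj u v ↔ (segment ℝ (p u) (q u) ∩ segment ℝ (p v) (q v)).Nonempty)

/-- the sphere dimension of `G` is at most `d`: the sphere dimension is `1` for circle graphs, and
otherwise the least `e ≥ 2` such that `G` is an `e`-sphere graph. -/
def SphereDimLE {V : Type} (G : SimpleGraph V) (d : ℕ) : Prop :=
  (1 ≤ d ∧ IsCircleGraph G) ∨ ∃ e, 2 ≤ e ∧ e ≤ d ∧ IsSphereGraph e G

section halfspaces

variable {E : Type} [AddCommGroup E] [Module ℝ E] [FiniteDimensional ℝ E] {m : ℕ}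

open Classical in
/-- the subsets of `Fin m` cut out by homogeneous half spaces. -/
noncomputable def cuts (φ : Fin m → E) : Finset (Finset (Fin m)) :=
  univ.filter (fun T => ∃ w : E →ₗ[ℝ] ℝ, ∀ a, a ∈ T ↔ 0 ≤ w (φ a))

omit [FiniteDimensional ℝ E] in
theorem mem_cuts {φ : Fin m → E} {T : Finset (Fin m)} :
    T ∈ cuts φ ↔ ∃ w : E →ₗ[ℝ] ℝ, ∀ a, a ∈ T ↔ 0 ≤ w (φ a) := by
  classical
  simp [cuts]

theorem shatters_card (φ : Fin m → E) {s : Finset (Fin m)} (hs : (cuts φ).Shatters s) :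
    s.card ≤ Module.finrank ℝ E := by
  classical
  by_contra hcon
  push Not at hcon
  have hli : ¬ LinearIndependent ℝ (fun a : s => φ a.1) := by
    intro h
    have := h.fintype_card_le_finrank
    rw [Fintype.card_coe] at this
    omega
  rw [Fintype.not_linearIndependent_iff] at hli
  obtain ⟨g', hg0', i0, hi0'⟩ := hli
  -- choose the sign
  obtain ⟨g, hg0, hi0⟩ : ∃ g : s → ℝ, ∑ i, g i • φ i.1 = 0 ∧ g i0 < 0 := by
    rcases lt_or_gt_of_ne hi0' with h | h
    · exact ⟨g', hg0', h⟩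
    · refine ⟨fun i => - g' i, ?_, by linarith⟩
      simp only [neg_smul, sum_neg_distrib, hg0', neg_zero]
  obtain ⟨u, hu, hsu⟩ := hs (t := (univ.filter (fun i : s => 0 < g i)).map
    ⟨Subtype.val, Subtype.val_injective⟩) (by
      intro x hx
      rw [mem_map] at hx
      obtain ⟨y, _, rfl⟩ := hx
      exact y.2)
  obtain ⟨w, hw⟩ := mem_cuts.1 hu
  have hmem : ∀ i : s, i.1 ∈ u ↔ 0 < g i := by
    intro i
    have h1 : i.1 ∈ s ∩ u ↔ i.1 ∈ u := by
      rw [mem_inter]
      exact ⟨fun h => h.2, fun h => ⟨i.2, h⟩⟩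
    rw [← h1, hsu, mem_map]
    constructor
    · rintro ⟨y, hy, hyi⟩
      have : y = i := Subtype.ext hyi
      rw [← this]
      exact (mem_filter.1 hy).2
    · intro h
      exact ⟨i, mem_filter.2 ⟨mem_univ _, h⟩, rfl⟩
  have hsum : ∑ i : s, g i * w (φ i.1) = 0 := by
    have := congrArg w hg0
    rw [map_sum, map_zero] at this
    simpa [map_smul, smul_eq_mul] using this
  have hpos : 0 < ∑ i : s, g i * w (φ i.1) := by
    apply sum_pos'
    · intro i _
      rcases lt_trichotomy (g i) 0 with h | h | h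
      · have h2 : ¬ 0 ≤ w (φ i.1) := by
          rw [← hw, hmem]
          exact not_lt.2 h.le
        push Not at h2
        exact (mul_pos_of_neg_of_neg h h2).le
      · rw [h, zero_mul]
      · have h2 : 0 ≤ w (φ i.1) := by
          rw [← hw, hmem]
          exact h
        exact mul_nonneg h.le h2
    · refine ⟨i0, mem_univ _, ?_⟩
      have h2 : ¬ 0 ≤ w (φ i0.1) := by
        rw [← hw, hmem]
        exact not_lt.2 hi0.le
      push Not at h2
      exact mul_pos_of_neg_of_neg hi0 h2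
  linarith

theorem card_cuts (φ : Fin m → E) (hm : 1 ≤ m) :
    (cuts φ).card ≤ (Module.finrank ℝ E + 1) * m ^ Module.finrank ℝ E := by
  classical
  have h1 : (cuts φ).card ≤ (cuts φ).shatterer.card := card_le_card_shatterer _
  have h2 := card_shatterer_le_sum_vcDim (𝒜 := cuts φ)
  rw [Fintype.card_fin] at h2
  have h3 : (cuts φ).vcDim ≤ Module.finrank ℝ E := by
    apply Finset.sup_le
    intro s hs
    exact shatters_card φ (mem_shatterer.1 hs)
  refine (h1.trans h2).trans ?_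
  calc ∑ k ∈ Iic (cuts φ).vcDim, m.choose k
      ≤ ∑ k ∈ Iic (Module.finrank ℝ E), m.choose k :=
        sum_le_sum_of_subset (Iic_subset_Iic.2 h3)
    _ ≤ ∑ k ∈ Iic (Module.finrank ℝ E), m ^ Module.finrank ℝ E := by
        apply sum_le_sum
        intro k hk
        rw [mem_Iic] at hk
        exact (Nat.choose_le_pow m k).trans (Nat.pow_le_pow_right hm hk)
    _ = _ := by rw [sum_const, Nat.card_Iic, smul_eq_mul]

/-- if every subset of `Fin m` is cut out by two half spaces then `m` is bounded in terms of the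
dimension. -/
theorem count (φ : Fin m → E) (hm : 1 ≤ m)
    (h : ∀ S : Finset (Fin m), ∃ w1 w2 : E →ₗ[ℝ] ℝ, ∀ a, a ∈ S ↔ 0 ≤ w1 (φ a) ∧ 0 ≤ w2 (φ a)) :
    2 ^ m ≤ ((Module.finrank ℝ E + 1) * m ^ Module.finrank ℝ E) ^ 2 := by
  classical
  have h1 : (univ : Finset (Finset (Fin m))).card ≤ (cuts φ ×ˢ cuts φ).card := by
    have hex : ∀ S : Finset (Fin m), ∃ T1 T2 : Finset (Fin m), T1 ∈ cuts φ ∧ T2 ∈ cuts φ ∧
        S = T1 ∩ T2 := by
      intro S
      obtain ⟨w1, w2, hw⟩ := h S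
      refine ⟨univ.filter (fun a => 0 ≤ w1 (φ a)), univ.filter (fun a => 0 ≤ w2 (φ a)),
        mem_cuts.2 ⟨w1, fun a => by simp⟩, mem_cuts.2 ⟨w2, fun a => by simp⟩, ?_⟩
      ext a
      rw [mem_inter, mem_filter, mem_filter, hw a]
      simp
    choose T1 T2 h1 h2 h3 using hex
    apply card_le_card_of_injOn (fun S => (T1 S, T2 S))
    · intro S _
      rw [mem_coe, mem_product]
      exact ⟨h1 S, h2 S⟩
    · intro S _ S' _ hSS
      obtain ⟨e1, e2⟩ := Prod.mk.inj hSS
      rw [h3 S, h3 S', e1, e2]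
  rw [card_univ, Fintype.card_finset, Fintype.card_fin, card_product] at h1
  refine h1.trans ?_
  rw [sq]
  exact Nat.mul_le_mul (card_cuts φ hm) (card_cuts φ hm)

end halfspaces

/-- the co-bipartite graph with sides `Fin m` and all subsets of `Fin m`, where a subset is adjacent
to its elements. -/
def cobip (m : ℕ) : SimpleGraph (Fin m ⊕ Finset (Fin m)) where
  Adj
    | Sum.inl a, Sum.inl b => a ≠ b
    | Sum.inl a, Sum.inr S => a ∈ S
    | Sum.inr S, Sum.inl a => a ∈ S
    | Sum.inr S, Sum.inr T => S ≠ T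
  symm := ⟨by
    rintro (a | S) (b | T) h
    · exact Ne.symm h
    · exact h
    · exact h
    · exact Ne.symm h⟩
  loopless := ⟨by
    rintro (a | S) h
    · exact h rfl
    · exact h rfl⟩

/-- when two spheres meet. -/
theorem sphere_inter {d : ℕ} (hd : 2 ≤ d) (c c' : EuclideanSpace ℝ (Fin d)) {r r' : ℝ}
    (hr : 0 < r) (hr' : 0 < r') : (sphere c r ∩ sphere c' r').Nonempty ↔
      0 ≤ ‖c‖ ^ 2 + ‖c'‖ ^ 2 - 2 * inner ℝ c c' - r ^ 2 - r' ^ 2 + 2 * r * r' ∧
      0 ≤ -(‖c‖ ^ 2 + ‖c'‖ ^ 2 - 2 * inner ℝ c c' - r ^ 2 - r' ^ 2) + 2 * r * r' := by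
  have hD : ‖c - c'‖ ^ 2 = ‖c‖ ^ 2 + ‖c'‖ ^ 2 - 2 * inner ℝ c c' := by
    rw [norm_sub_sq_real]
    ring
  obtain ⟨D, hDD⟩ : ∃ D, D = ‖c - c'‖ := ⟨_, rfl⟩
  have hD0 : 0 ≤ D := hDD ▸ norm_nonneg _
  rw [← hD, ← hDD]
  constructor
  · rintro ⟨x, hx, hx'⟩
    rw [mem_sphere, dist_eq_norm] at hx hx'
    have t1 : D ≤ r + r' := by
      have h1 : c - c' = -(x - c) + (x - c') := by abel
      have := norm_add_le (-(x - c)) (x - c')
      rw [← h1, norm_neg, hx, hx', ← hDD] at this
      exact this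
    have t2 : r ≤ r' + D := by
      have h1 : x - c = (x - c') + -(c - c') := by abel
      have := norm_add_le (x - c') (-(c - c'))
      rw [← h1, norm_neg, hx, hx', ← hDD] at this
      exact this
    have t3 : r' ≤ r + D := by
      have h1 : x - c' = (x - c) + (c - c') := by abel
      have := norm_add_le (x - c) (c - c')
      rw [← h1, hx, hx', ← hDD] at this
      exact this
    constructor
    · nlinarith
    · nlinarith
  · rintro ⟨h1, h2⟩
    have t1 : D ≤ r + r' := by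
      by_contra hcon
      push Not at hcon
      nlinarith
    have t2 : |r - r'| ≤ D := by
      by_contra hcon
      push Not at hcon
      have h3 : D ^ 2 < |r - r'| ^ 2 := by
        apply pow_lt_pow_left₀ hcon hD0
        norm_num
      rw [sq_abs] at h3
      nlinarith
    have hrank : 1 < Module.rank ℝ (EuclideanSpace ℝ (Fin d)) := by
      rw [← Module.finrank_eq_rank, finrank_euclideanSpace_fin]
      exact_mod_cast (by omega : 1 < d)
    -- a unit vector in the direction of `c' - c`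
    obtain ⟨e, he1, he2⟩ : ∃ e : EuclideanSpace ℝ (Fin d), ‖e‖ = 1 ∧ c' - c = D • e := by
      rcases hD0.lt_or_eq with h | h
      · refine ⟨D⁻¹ • (c' - c), ?_, ?_⟩
        · rw [norm_smul, norm_sub_rev, ← hDD, norm_inv, Real.norm_of_nonneg hD0]
          field_simp
        · rw [smul_smul, mul_inv_cancel₀ h.ne', one_smul]
      · have h0 : c' - c = 0 := by
          rw [← norm_eq_zero, norm_sub_rev, ← hDD, h]
        refine ⟨EuclideanSpace.single ⟨0, by omega⟩ 1, by simp, ?_⟩
        rw [h0, ← h, zero_smul]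
    have hc' : c' = c + D • e := by
      rw [← he2]
      abel
    have hpre := isPreconnected_sphere hrank c r
    have m1 : c + r • e ∈ sphere c r := by
      rw [mem_sphere, dist_eq_norm]
      have : c + r • e - c = r • e := by abel
      rw [this, norm_smul, he1, mul_one, Real.norm_of_nonneg hr.le]
    have m2 : c - r • e ∈ sphere c r := by
      rw [mem_sphere, dist_eq_norm]
      have : c - r • e - c = -(r • e) := by abel
      rw [this, norm_neg, norm_smul, he1, mul_one, Real.norm_of_nonneg hr.le]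
    have hivt := hpre.intermediate_value m1 m2 (f := fun x => dist x c')
      (by fun_prop)
    have v1 : dist (c + r • e) c' = |r - D| := by
      rw [dist_eq_norm, hc']
      have : c + r • e - (c + D • e) = (r - D) • e := by
        rw [sub_smul]
        abel
      rw [this, norm_smul, he1, mul_one, Real.norm_eq_abs]
    have v2 : dist (c - r • e) c' = r + D := by
      rw [dist_eq_norm, hc']
      have : c - r • e - (c + D • e) = -((r + D) • e) := by
        rw [add_smul]
        abel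
      rw [this, norm_neg, norm_smul, he1, mul_one, Real.norm_of_nonneg (by linarith)]
    have hmem : r' ∈ Set.Icc (dist (c + r • e) c') (dist (c - r • e) c') := by
      rw [v1, v2]
      rw [abs_le] at t2
      constructor
      · rw [abs_le]
        constructor <;> linarith [t2.1, t2.2]
      · linarith [t2.1]
    obtain ⟨x, hx1, hx2⟩ := hivt hmem
    exact ⟨x, hx1, hx2⟩

/-- the lifted coordinates of a sphere. -/
noncomputable def lift {d : ℕ} (c : EuclideanSpace ℝ (Fin d)) (r : ℝ) :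
    ℝ × EuclideanSpace ℝ (Fin d) × ℝ × ℝ := (1, c, r, ‖c‖ ^ 2 - r ^ 2)

/-- linear functionals on the lifted coordinates. -/
noncomputable def func {d : ℕ} (α : ℝ) (c : EuclideanSpace ℝ (Fin d)) (β γ : ℝ) :
    (ℝ × EuclideanSpace ℝ (Fin d) × ℝ × ℝ) →ₗ[ℝ] ℝ where
  toFun x := α * x.1 + inner ℝ x.2.1 c + β * x.2.2.1 + γ * x.2.2.2
  map_add' x y := by
    simp only [Prod.fst_add, Prod.snd_add, inner_add_left]
    ring
  map_smul' t x := by
    simp only [Prod.smul_fst, Prod.smul_snd, smul_eq_mul, inner_smul_left, RingHom.id_apply,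
      conj_trivial]
    ring

theorem sphere_bound {d m : ℕ} (hd : 2 ≤ d) (hm : 1 ≤ m) (h : IsSphereGraph d (cobip m)) :
    2 ^ m ≤ ((d + 4) * m ^ (d + 3)) ^ 2 := by
  obtain ⟨c, r, hr, hadj⟩ := h
  have hfr : Module.finrank ℝ (ℝ × EuclideanSpace ℝ (Fin d) × ℝ × ℝ) = d + 3 := by
    simp [Module.finrank_prod]
    ring
  have key := count (fun a : Fin m => lift (c (Sum.inl a)) (r (Sum.inl a))) hm (by
    intro S
    refine ⟨func (‖c (Sum.inr S)‖ ^ 2 - r (Sum.inr S) ^ 2) (-(2 : ℝ) • c (Sum.inr S))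
        (2 * r (Sum.inr S)) 1,
      func (-(‖c (Sum.inr S)‖ ^ 2 - r (Sum.inr S) ^ 2)) ((2 : ℝ) • c (Sum.inr S))
        (2 * r (Sum.inr S)) (-1), ?_⟩
    intro a
    have h1 : a ∈ S ↔ (cobip m).Adj (Sum.inl a) (Sum.inr S) := Iff.rfl
    rw [h1, hadj _ _ (by simp), sphere_inter hd _ _ (hr _) (hr _)]
    simp only [func, lift, LinearMap.coe_mk, AddHom.coe_mk, inner_smul_right]
    constructor
    · rintro ⟨h2, h3⟩
      constructor
      · linarith
      · linarith
    · rintro ⟨h2, h3⟩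
      constructor
      · linarith
      · linarith)
  rw [hfr] at key
  exact key

/-- the linear form vanishing on the line through two points of the plane. -/
def lin (p q x : EuclideanSpace ℝ (Fin 2)) : ℝ :=
  (p 1 - q 1) * x 0 + (q 0 - p 0) * x 1 + (p 0 * q 1 - p 1 * q 0)

theorem norm_sq2 (x : EuclideanSpace ℝ (Fin 2)) : ‖x‖ ^ 2 = x 0 ^ 2 + x 1 ^ 2 := by
  rw [EuclideanSpace.norm_sq_eq]
  simp [Fin.sum_univ_two, sq_abs]

/-- the real-number form of the fact that two chords whose ends are separated meet. -/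
theorem chord_aux {p0 p1 q0 q1 r0 r1 t0 t1 : ℝ} (np : 1 = p0 ^ 2 + p1 ^ 2)
    (nq : 1 = q0 ^ 2 + q1 ^ 2) (nr : 1 = r0 ^ 2 + r1 ^ 2) (nt : 1 = t0 ^ 2 + t1 ^ 2)
    (hL : 0 < (t0 - r0) ^ 2 + (t1 - r1) ^ 2) {a b : ℝ} (ha : 0 ≤ a) (hb : 0 ≤ b) (hab : a + b = 1)
    (h0 : (r1 - t1) * (a * p0 + b * q0) + (t0 - r0) * (a * p1 + b * q1) +
      (r0 * t1 - r1 * t0) = 0) :
    ∃ s : ℝ, 0 ≤ s ∧ s ≤ 1 ∧ a * p0 + b * q0 = (1 - s) * r0 + s * t0 ∧
      a * p1 + b * q1 = (1 - s) * r1 + s * t1 := by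
  obtain ⟨x0, hx0⟩ : ∃ x0, x0 = a * p0 + b * q0 := ⟨_, rfl⟩
  obtain ⟨x1, hx1⟩ : ∃ x1, x1 = a * p1 + b * q1 := ⟨_, rfl⟩
  have hdisc : x0 ^ 2 + x1 ^ 2 ≤ 1 := by
    have h1 : x0 ^ 2 + x1 ^ 2 = 1 - a * b * ((p0 - q0) ^ 2 + (p1 - q1) ^ 2) := by
      have hb2 : b = 1 - a := by linarith
      rw [hx0, hx1, hb2]
      linear_combination (-a ^ 2 - a * (1 - a)) * np + (-(1 - a) ^ 2 - a * (1 - a)) * nq
    have h2 : 0 ≤ a * b * ((p0 - q0) ^ 2 + (p1 - q1) ^ 2) := by positivity
    linarith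
  rw [← hx0, ← hx1] at h0 ⊢
  clear hx0 hx1 np nq ha hb hab
  obtain ⟨L, hLL⟩ : ∃ L, L = (t0 - r0) ^ 2 + (t1 - r1) ^ 2 := ⟨_, rfl⟩
  rw [← hLL] at hL
  obtain ⟨s, hs⟩ : ∃ s, s = ((x0 - r0) * (t0 - r0) + (x1 - r1) * (t1 - r1)) / L := ⟨_, rfl⟩
  have hsL : s * L = (x0 - r0) * (t0 - r0) + (x1 - r1) * (t1 - r1) := by
    rw [hs]
    field_simp
  have g0 : x0 = (1 - s) * r0 + s * t0 := by
    have h2 : L * (x0 - (r0 + s * (t0 - r0))) = 0 := by
      have h1 : L * (x0 - (r0 + s * (t0 - r0))) = L * (x0 - r0) - (s * L) * (t0 - r0) := by ring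
      rw [h1, hsL, hLL]
      linear_combination (-(t1 - r1)) * h0
    have := (mul_eq_zero.1 h2).resolve_left hL.ne'
    linarith
  have g1 : x1 = (1 - s) * r1 + s * t1 := by
    have h2 : L * (x1 - (r1 + s * (t1 - r1))) = 0 := by
      have h1 : L * (x1 - (r1 + s * (t1 - r1))) = L * (x1 - r1) - (s * L) * (t1 - r1) := by ring
      rw [h1, hsL, hLL]
      linear_combination (t0 - r0) * h0
    have := (mul_eq_zero.1 h2).resolve_left hL.ne'
    linarith
  have hs01 : 0 ≤ s * (1 - s) := by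
    have h1 : x0 ^ 2 + x1 ^ 2 = 1 - s * (1 - s) * L := by
      rw [g0, g1, hLL]
      linear_combination (-(1 - s) ^ 2 - s * (1 - s)) * nr + (-s ^ 2 - s * (1 - s)) * nt
    by_contra hcon
    push Not at hcon
    have := mul_neg_of_neg_of_pos hcon hL
    linarith
  refine ⟨s, ?_, ?_, g0, g1⟩
  · by_contra hcon
    push Not at hcon
    nlinarith
  · by_contra hcon
    push Not at hcon
    nlinarith

/-- the balance point. -/
theorem balance {u v : ℝ} (h : u * v ≤ 0) :
    ∃ a b : ℝ, 0 ≤ a ∧ 0 ≤ b ∧ a + b = 1 ∧ a * u + b * v = 0 := by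
  rcases eq_or_ne u 0 with h1 | h1
  · exact ⟨1, 0, by norm_num, le_refl _, by norm_num, by rw [h1]; ring⟩
  · have hlt : 0 < |u| := abs_pos.2 h1
    have hs : 0 < |u| + |v| := by positivity
    refine ⟨|v| / (|u| + |v|), |u| / (|u| + |v|), by positivity, by positivity, ?_, ?_⟩
    · field_simp
      ring
    · have h2 : |v| * u + |u| * v = 0 := by
        rcases lt_or_gt_of_ne h1 with h3 | h3
        · have h4 : 0 ≤ v := by
            by_contra h5
            push Not at h5
            have := mul_pos_of_neg_of_neg h3 h5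
            linarith
          rw [abs_of_neg h3, abs_of_nonneg h4]
          ring
        · have h4 : v ≤ 0 := by
            by_contra h5
            push Not at h5
            have := mul_pos h3 h5
            linarith
          rw [abs_of_pos h3, abs_of_nonpos h4]
          ring
      have h3 : |v| / (|u| + |v|) * u + |u| / (|u| + |v|) * v =
          (|v| * u + |u| * v) / (|u| + |v|) := by
        ring
      rw [h3, h2, zero_div]

theorem unbalance {u v a b : ℝ} (ha : 0 ≤ a) (hb : 0 ≤ b) (hab : a + b = 1)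
    (h0 : a * u + b * v = 0) : u * v ≤ 0 := by
  by_contra hcon
  push Not at hcon
  rcases ha.lt_or_eq with ha1 | ha1
  · have h2 : a * (u * v) = - (b * v ^ 2) := by
      have : a * u = - (b * v) := by linarith
      calc a * (u * v) = (a * u) * v := by ring
        _ = _ := by rw [this]; ring
    have h3 : 0 < a * (u * v) := mul_pos ha1 hcon
    have h4 : 0 ≤ b * v ^ 2 := mul_nonneg hb (sq_nonneg _)
    linarith
  · have hb1 : b = 1 := by linarith
    rw [← ha1, hb1] at h0
    have : v = 0 := by linarith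
    rw [this, mul_zero] at hcon
    exact lt_irrefl _ hcon

/-- when two chords meet. -/
theorem chord_inter {p q p' q' : EuclideanSpace ℝ (Fin 2)} (hp : ‖p‖ = 1) (hq : ‖q‖ = 1)
    (hp' : ‖p'‖ = 1) (hq' : ‖q'‖ = 1) (hne : p' ≠ q') :
    (segment ℝ p q ∩ segment ℝ p' q').Nonempty ↔ lin p' q' p * lin p' q' q ≤ 0 := by
  have np := norm_sq2 p
  have nq := norm_sq2 q
  have np' := norm_sq2 p'
  have nq' := norm_sq2 q'
  rw [hp, one_pow] at np
  rw [hq, one_pow] at nq
  rw [hp', one_pow] at np'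
  rw [hq', one_pow] at nq'
  have hcomb : ∀ a b : ℝ, a + b = 1 → a * lin p' q' p + b * lin p' q' q =
      (p' 1 - q' 1) * (a * p 0 + b * q 0) + (q' 0 - p' 0) * (a * p 1 + b * q 1) +
        (p' 0 * q' 1 - p' 1 * q' 0) := by
    intro a b hab
    have : b = 1 - a := by linarith
    rw [this]
    unfold lin
    ring
  constructor
  · rintro ⟨x, ⟨a, b, ha, hb, hab, rfl⟩, ⟨a', b', ha', hb', hab', hx⟩⟩
    have e0 : a' * p' 0 + b' * q' 0 = a * p 0 + b * q 0 := by
      have := congrFun (congrArg (fun z : EuclideanSpace ℝ (Fin 2) => (z : Fin 2 → ℝ)) hx) 0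
      simpa using this
    have e1 : a' * p' 1 + b' * q' 1 = a * p 1 + b * q 1 := by
      have := congrFun (congrArg (fun z : EuclideanSpace ℝ (Fin 2) => (z : Fin 2 → ℝ)) hx) 1
      simpa using this
    apply unbalance ha hb hab
    have hb2 : b' = 1 - a' := by linarith
    rw [hcomb a b hab, ← e0, ← e1, hb2]
    ring
  · intro h
    obtain ⟨a, b, ha, hb, hab, h0⟩ := balance h
    rw [hcomb a b hab] at h0
    have hLpos : 0 < (q' 0 - p' 0) ^ 2 + (q' 1 - p' 1) ^ 2 := by
      have h1 : 0 ≤ (q' 0 - p' 0) ^ 2 + (q' 1 - p' 1) ^ 2 := by positivity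
      rcases h1.lt_or_eq with h2 | h2
      · exact h2
      · exfalso
        apply hne
        have e0 : (q' 0 - p' 0) ^ 2 = 0 := by
          nlinarith [sq_nonneg (q' 0 - p' 0), sq_nonneg (q' 1 - p' 1)]
        have e1 : (q' 1 - p' 1) ^ 2 = 0 := by
          nlinarith [sq_nonneg (q' 0 - p' 0), sq_nonneg (q' 1 - p' 1)]
        have f0 : q' 0 - p' 0 = 0 := by simpa using e0
        have f1 : q' 1 - p' 1 = 0 := by simpa using e1
        have h3 : ∀ i : Fin 2, p' i = q' i := by
          intro i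
          fin_cases i
          · simp only [Fin.zero_eta]
            linarith
          · simp only [Fin.mk_one]
            linarith
        ext i
        exact h3 i
    obtain ⟨s, hs0, hs1, g0, g1⟩ := chord_aux np nq np' nq' hLpos ha hb hab h0
    refine ⟨a • p + b • q, ⟨a, b, ha, hb, hab, rfl⟩, ⟨1 - s, s, by linarith, hs0, by ring, ?_⟩⟩
    have h3 : ∀ i : Fin 2, (1 - s) * p' i + s * q' i = a * p i + b * q i := by
      intro i
      fin_cases i
      · simp only [Fin.zero_eta]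
        exact g0.symm
      · simp only [Fin.mk_one]
        exact g1.symm
    ext i
    simpa using h3 i

/-- linear functionals on `ℝ ^ 6`. -/
def func6 (A B C : ℝ) : (Fin 6 → ℝ) →ₗ[ℝ] ℝ where
  toFun x := -(A ^ 2 * x 0 + A * B * x 1 + B ^ 2 * x 2 + A * C * x 3 + B * C * x 4 + C ^ 2 * x 5)
  map_add' x y := by
    simp only [Pi.add_apply]
    ring
  map_smul' t x := by
    simp only [Pi.smul_apply, smul_eq_mul, RingHom.id_apply]
    ring

theorem circle_bound {m : ℕ} (hm : 1 ≤ m) (h : IsCircleGraph (cobip m)) :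
    2 ^ m ≤ (7 * m ^ 6) ^ 2 := by
  obtain ⟨p, q, hpq, hadj⟩ := h
  have hfr : Module.finrank ℝ (Fin 6 → ℝ) = 6 := by simp
  have key := count (fun a : Fin m => (![p (Sum.inl a) 0 * q (Sum.inl a) 0,
      p (Sum.inl a) 0 * q (Sum.inl a) 1 + p (Sum.inl a) 1 * q (Sum.inl a) 0,
      p (Sum.inl a) 1 * q (Sum.inl a) 1, p (Sum.inl a) 0 + q (Sum.inl a) 0,
      p (Sum.inl a) 1 + q (Sum.inl a) 1, 1] : Fin 6 → ℝ)) hm (by
    intro S
    refine ⟨func6 (p (Sum.inr S) 1 - q (Sum.inr S) 1) (q (Sum.inr S) 0 - p (Sum.inr S) 0)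
      (p (Sum.inr S) 0 * q (Sum.inr S) 1 - p (Sum.inr S) 1 * q (Sum.inr S) 0), 0, ?_⟩
    intro a
    have h1 : a ∈ S ↔ (cobip m).Adj (Sum.inl a) (Sum.inr S) := Iff.rfl
    obtain ⟨a1, a2, a3⟩ := hpq (Sum.inl a)
    obtain ⟨b1, b2, b3⟩ := hpq (Sum.inr S)
    rw [h1, hadj _ _ (by simp), chord_inter a1 a2 b1 b2 b3]
    have e : lin (p (Sum.inr S)) (q (Sum.inr S)) (p (Sum.inl a)) *
        lin (p (Sum.inr S)) (q (Sum.inr S)) (q (Sum.inl a)) =
        - func6 (p (Sum.inr S) 1 - q (Sum.inr S) 1) (q (Sum.inr S) 0 - p (Sum.inr S) 0)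
      (p (Sum.inr S) 0 * q (Sum.inr S) 1 - p (Sum.inr S) 1 * q (Sum.inr S) 0)
      ![p (Sum.inl a) 0 * q (Sum.inl a) 0,
      p (Sum.inl a) 0 * q (Sum.inl a) 1 + p (Sum.inl a) 1 * q (Sum.inl a) 0,
      p (Sum.inl a) 1 * q (Sum.inl a) 1, p (Sum.inl a) 0 + q (Sum.inl a) 0,
      p (Sum.inl a) 1 + q (Sum.inl a) 1, 1] := by
      simp only [func6, lin, LinearMap.coe_mk, AddHom.coe_mk, Matrix.cons_val]
      ring
    rw [e]
    constructor
    · intro h2
      exact ⟨by linarith, by simp⟩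
    · rintro ⟨h2, _⟩
      linarith)
  rw [hfr] at key
  exact key

/-- exponential beats polynomial. -/
theorem exists_large (N : ℕ) : ∃ m : ℕ, 1 ≤ m ∧ ∀ k ≤ N, ((k + 1) * m ^ k) ^ 2 < 2 ^ m := by
  have h1 := tendsto_pow_const_div_const_pow_of_one_lt (2 * N) (r := (2 : ℝ)) (by norm_num)
  have h2 : ∀ᶠ m : ℕ in Filter.atTop, (m : ℝ) ^ (2 * N) / 2 ^ m < 1 / ((N + 1 : ℝ) ^ 2) :=
    h1.eventually_lt_const (by positivity)
  obtain ⟨m, hm1, hm2⟩ := (h2.and (Filter.eventually_ge_atTop 1)).exists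
  refine ⟨m, hm2, ?_⟩
  intro k hk
  have h3 : (m : ℝ) ^ (2 * N) * (N + 1 : ℝ) ^ 2 < 2 ^ m := by
    rw [div_lt_div_iff₀ (by positivity) (by positivity)] at hm1
    linarith
  have h4 : m ^ (2 * N) * (N + 1) ^ 2 < 2 ^ m := by exact_mod_cast h3
  refine lt_of_le_of_lt ?_ h4
  calc ((k + 1) * m ^ k) ^ 2 ≤ ((N + 1) * m ^ N) ^ 2 := by
        apply Nat.pow_le_pow_left
        apply Nat.mul_le_mul (by omega)
        exact Nat.pow_le_pow_right hm2 hk
    _ = m ^ (2 * N) * (N + 1) ^ 2 := by ring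

/-- For every finite graph `H` with three pairwise distinct and nonadjacent vertices (for instance
the edgeless graph with three vertices), there are, for every `d`, finite graphs that do
not contain `H` as an induced minor and whose sphere dimension is not at most `d`. -/
theorem result (W : Type) [Finite W] (H : SimpleGraph W) (x y z : W) (hxy : x ≠ y) (hxz : x ≠ z)
    (hyz : y ≠ z) (nxy : ¬ H.Adj x y) (nxz : ¬ H.Adj x z) (nyz : ¬ H.Adj y z) (d : ℕ) :
    ∃ (V : Type) (_ : Finite V) (G : SimpleGraph V), ¬ IsInducedMinor H G ∧ ¬ SphereDimLE G d := by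
  obtain ⟨m, hm1, hm⟩ := exists_large (d + 6)
  refine ⟨Fin m ⊕ Finset (Fin m), inferInstance, cobip m, ?_, ?_⟩
  · rintro ⟨B, hB1, hB2, hB3⟩
    have hne : ∀ i, ∃ a, a ∈ B i := fun i => by
      obtain ⟨⟨a, ha⟩⟩ := (hB1 i).nonempty
      exact ⟨a, ha⟩
    choose f hf using hne
    have key : ∀ i j, i ≠ j → ¬ H.Adj i j → f i ≠ f j ∧ ¬ (cobip m).Adj (f i) (f j) := by
      intro i j hij hadj
      constructor
      · intro h
        exact Set.disjoint_left.1 (hB2 i j hij) (hf i) (h ▸ hf j)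
      · intro h
        exact hadj ((hB3 i j hij).2 ⟨_, hf i, _, hf j, h⟩)
    obtain ⟨a1, a2⟩ := key x y hxy nxy
    obtain ⟨b1, b2⟩ := key x z hxz nxz
    obtain ⟨c1, c2⟩ := key y z hyz nyz
    rcases hx : f x with a | S <;> rcases hy : f y with b | T <;> rcases hz : f z with c | U <;>
      rw [hx, hy] at a1 a2 <;> rw [hx, hz] at b1 b2 <;> rw [hy, hz] at c1 c2
    · exact a2 (fun h => a1 (by rw [h]))
    · exact a2 (fun h => a1 (by rw [h]))
    · exact b2 (fun h => b1 (by rw [h]))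
    · exact c2 (fun h => c1 (by rw [h]))
    · exact c2 (fun h => c1 (by rw [h]))
    · exact b2 (fun h => b1 (by rw [h]))
    · exact a2 (fun h => a1 (by rw [h]))
    · exact a2 (fun h => a1 (by rw [h]))
  · rintro (⟨_, h⟩ | ⟨e, he1, he2, h⟩)
    · have h1 := circle_bound hm1 h
      have h2 : (7 * m ^ 6) ^ 2 < 2 ^ m := hm 6 (by omega)
      omega
    · have h1 := sphere_bound he1 hm1 h
      have h2 := hm (e + 3) (by omega)
      have h3 : e + 3 + 1 = e + 4 := rfl
      rw [h3] at h2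
      omega

end Pool.Agent.Results.MP_97b8d2_co.UnboundedSphereDim
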